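import Pool.Agent.Y645.UG.Stm
import Pool.Agent.Y68.UL.Star

/-!
# Job UG-STAR: the rank of a generic point of an atypical family, products of hyperplanes
(helper484, adapted from `Pool.Agent.Y68.UL.t_STAR`)
-/

namespace Pool.Agent.Y484.UG

open MvPolynomial Module Pool.Agent.Y645.UL Pool.Agent.Y645.UG Pool.Agent.Y68.UL

theorem ite_lin_add {L N I : Type} [Field L] [Fintype N] [DecidableEq I] (f : N → I) (i : I)
    (y x z : N → L) : (∑ n, if f n = i then y n * (x n + z n) else 0) =
      (∑ n, if f n = i then y n * x n else 0) + ∑ n, if f n = i then y n * z n else 0 := by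
  rw [← Finset.sum_add_distrib]
  refine Finset.sum_congr rfl fun n _ => ?_
  split_ifs
  · ring
  · rw [add_zero]

theorem ite_lin_smul {L N I : Type} [Field L] [Fintype N] [DecidableEq I] (f : N → I) (i : I)
    (y x : N → L) (t : L) : (∑ n, if f n = i then y n * (t * x n) else 0) =
      t * ∑ n, if f n = i then y n * x n else 0 := by
  rw [Finset.mul_sum]
  refine Finset.sum_congr rfl fun n _ => ?_
  split_ifs
  · ring
  · rw [mul_zero]

theorem t_STARg : Pool.Agent.Y645.UG.S_STARg := by
  classical
  intro k L F I N _ _ _ _ _ _ _ _ _ dI _ f y a ha hspc hind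
  obtain ⟨r, b, hb, hbs⟩ := perp_span (L := L) (Lam y)
  -- a nonzero determinant at `y`
  obtain ⟨g, hg⟩ := exists_det_ne (L := L)
    (fun (q : Fin r) (i : I) => ∑ n, (if f n = i then (y n : L) * (b q n : L) else 0)) (by
    intro c hc
    refine hind c fun η hη => ?_
    have h1 := hbs η hη
    clear hη
    induction h1 using Submodule.span_induction with
    | mem x hx =>
      obtain ⟨q, rfl⟩ := hx
      exact hc q
    | zero => simp
    | add x z hx hz h1 h2 =>
      have h3 : (∑ i, c i * ∑ n, (if f n = i then (y n : L) * (x + z) n else 0)) =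
          (∑ i, c i * ∑ n, (if f n = i then (y n : L) * x n else 0)) +
          ∑ i, c i * ∑ n, (if f n = i then (y n : L) * z n else 0) := by
        rw [← Finset.sum_add_distrib]
        refine Finset.sum_congr rfl fun i _ => ?_
        rw [← mul_add]
        congr 1
        exact ite_lin_add f i (fun n => (y n : L)) x z
      rw [h3, h1, h2, add_zero]
    | smul t x hx h1 =>
      have h3 : (∑ i, c i * ∑ n, (if f n = i then (y n : L) * (t • x) n else 0)) =
          t * ∑ i, c i * ∑ n, (if f n = i then (y n : L) * x n else 0) := by
        rw [Finset.mul_sum]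
        refine Finset.sum_congr rfl fun i _ => ?_
        have h4 : (∑ n, (if f n = i then (y n : L) * (t • x) n else 0)) =
            t * ∑ n, (if f n = i then (y n : L) * x n else 0) :=
          ite_lin_smul f i (fun n => (y n : L)) x t
        rw [h4]
        ring
      rw [h3, h1, mul_zero])
  let D : Matrix I I (MvPolynomial N k) := Matrix.of fun i q =>
    ∑ n, (if f n = i then C ((b (g q) n : ℚ) : k) * X n else 0)
  have hD : ∀ (E : Type) [Field E] [Algebra k E] [CharZero E] (x : N → Eˣ),
      aeval (fun j => (x j : E)) D.det = (Matrix.of fun i q =>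
        ∑ n, (if f n = i then (x n : E) * (b (g q) n : E) else 0) : Matrix I I E).det := by
    intro E _ _ _ x
    rw [AlgHom.map_det]
    congr 1
    ext i q
    simp only [D, AlgHom.mapMatrix_apply, Matrix.map_apply, Matrix.of_apply, map_sum]
    refine Finset.sum_congr rfl fun n _ => ?_
    split_ifs
    · simp only [map_mul, aeval_X, algHom_C, map_ratCast]
      ring
    · exact map_zero _
  have hDa : aeval (fun j => (a j : F)) D.det ≠ 0 := by
    intro h0
    have := hspc _ h0
    rw [hD L y] at this
    exact hg this
  rw [hD F a] at hDa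
  -- the linear map
  let T := perp F (Lam a)
  let e : T →ₗ[F] (I → F) :=
    { toFun := fun η i => ∑ n, (if f n = i then (a n : F) * (η : N → F) n else 0)
      map_add' := by
        intro x z; ext i
        exact ite_lin_add f i (fun n => (a n : F)) x z
      map_smul' := by
        intro c x; ext i
        exact ite_lin_smul f i (fun n => (a n : F)) x c }
  have hmem : ∀ q, (fun n => (b q n : F)) ∈ T := fun q =>
    cast_mem_perp (perp_anti (Lam_le y a hspc) (hb q))
  have hsurj : Function.Surjective e := by
    intro t
    set M : Matrix I I F := Matrix.of fun i q =>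
        ∑ n, (if f n = i then (a n : F) * (b (g q) n : F) else 0) with hM
    have hu : IsUnit M.det := isUnit_iff_ne_zero.2 hDa
    let c : I → F := M⁻¹.mulVec t
    refine ⟨∑ q, c q • (⟨fun n => (b (g q) n : F), hmem (g q)⟩ : T), ?_⟩
    rw [map_sum]
    have h1 : M.mulVec c = t := by
      simp only [c, Matrix.mulVec_mulVec, Matrix.mul_nonsing_inv M hu, Matrix.one_mulVec]
    rw [← h1]
    ext i
    rw [Finset.sum_apply, Matrix.mulVec, dotProduct]
    refine Finset.sum_congr rfl fun q _ => ?_
    rw [map_smul, Pi.smul_apply, smul_eq_mul, mul_comm]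
    rfl
  -- dimensions
  let S : Submodule F (N → F) := (LinearMap.ker e).map T.subtype
  have hS : finrank F S = finrank F (LinearMap.ker e) :=
    Submodule.finrank_map_subtype_eq _ _
  have hrn := LinearMap.finrank_range_add_finrank_ker e
  rw [LinearMap.range_eq_top.2 hsurj, finrank_top, Module.finrank_pi] at hrn
  have h1 : finrank F T + finrank ℤ (Lam a) = Fintype.card N := finrank_perp F (Lam a)
  have h2 := mrk_add a
  have h3 : td k (fun n => (a n : F)) ≤ finrank F S := by
    refine td_le_finrank a S fun D => ?_
    refine ⟨⟨dvec D a, dvec_mem_perp D a⟩, ?_, rfl⟩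
    change e _ = 0
    ext i
    change (∑ n, if f n = i then (a n : F) * (D (a n : F) / (a n : F)) else 0) = 0
    have h4 : (∑ n, if f n = i then (a n : F) * (D (a n : F) / (a n : F)) else 0) =
        D (∑ n, if f n = i then (a n : F) else 0) := by
      rw [map_sum]
      refine Finset.sum_congr rfl fun n _ => ?_
      split_ifs
      · exact mul_div_cancel₀ _ (a n).ne_zero
      · exact (map_zero D).symm
    rw [h4, ha i, map_zero]
  change td k (fun n => (a n : F)) + _ ≤ _
  omega

end Pool.Agent.Y484.UG
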